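import Mathlib
import Pool.Agent.MP_48a2f9_mp.Final

/-!
Sharp asymptotics of the two-point function of the Potts model along a defect line, for every
`0 ≤ J ≤ J_c`, in dimension `d = D + 1 ≥ 2`.
-/

open Filter Topology MeasureTheory Pool.Agent.MP_48a2f9_mp

namespace Pool.Agent.Results.MP_48a2f9_mp.SharpAsymptotics

theorem result (D q : ℕ) (hD : 1 ≤ D) (hq : 2 ≤ q) :
    0 < betaC D q ∧ ∀ β : ℝ, 0 < β → (β : EReal) < betaC D q →
      ∃ μ : ℝ → Measure (Site D → Fin q),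
        (∀ J, 0 ≤ J → ∀ m, IsGibbs β J m ↔ m = μ J) ∧
        (∀ J, 0 ≤ J → Tendsto
          (fun n : ℕ => -(1 / (n : ℝ)) * Real.log (G (μ J) n - 1 / (q : ℝ))) atTop
          (𝓝 (xi (μ J)))) ∧
        IsLUB {J | 0 ≤ J ∧ xi (μ J) = xi (μ 1)} (Jc μ) ∧
        (D + 1 ≤ 3 → Jc μ = 1) ∧ (4 ≤ D + 1 → 1 < Jc μ) ∧
        ∀ J, 0 ≤ J → J ≤ Jc μ → ∃ C : ℝ, 0 < C ∧
          Tendsto (fun n : ℕ => (G (μ J) n - 1 / (q : ℝ)) /
            (C * (if J < Jc μ then gSub (D + 1) n else gCrit (D + 1) n) *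
              Real.exp (-xi (μ 1) * n))) atTop (𝓝 1) := by
  refine ⟨betaC_pos (by omega), fun β hβ hc => ?_⟩
  obtain ⟨μ, h1⟩ := exists_family hq hβ hc
  obtain ⟨h2, h3, h4⟩ := OZ.mainStmt D q β μ hD hq hβ hc fun J hJ => (h1 J hJ _).2 rfl
  exact ⟨μ, h1, h2, isLUB_csSup ⟨1, zero_le_one, rfl⟩ h3, h4⟩

end Pool.Agent.Results.MP_48a2f9_mp.SharpAsymptotics
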